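import Pool.Agent.H815.QC.Stm

/-!
# Project QC: the statement R9
-/

set_option autoImplicit false

namespace Pool.Agent.H331.QC

open Pool.Agent.Y110.FJ Pool.Agent.T2H65.GP
open Pool.Agent.H815.QC

variable {V : Type} (Λ : SimpleGraph V)

/-- the sum of all exponents -/
noncomputable def tot : P2 Λ →* Multiplicative ℤ :=
  glift (Λ := Λ) (B := B2 V) (fun _ => MonoidHom.id (Multiplicative ℤ)) (fun _ _ _ a b => mul_comm a b)

theorem tot_gp (w : V) (m : ℤ) : tot Λ (gp Λ w m) = Multiplicative.ofAdd m := by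
  show tot Λ (GrP.of Λ (B2 V) w (Multiplicative.ofAdd m)) = _
  rw [tot, glift_of]
  rfl

theorem gp_ne {w : V} {m : ℤ} (hm : m ≠ 0) : gp Λ w m ≠ 1 := by
  intro h
  have h1 := tot_gp Λ w m
  rw [h, map_one] at h1
  exact hm (Multiplicative.ofAdd.injective h1.symm)

theorem gp_mem {w : V} {S : V → Prop} (h : S w) (m : ℤ) : gp Λ w m ∈ std Λ (B2 V) S :=
  vg_le_std Λ (B2 V) h ⟨_, rfl⟩

theorem Mn_gp [Finite V] {w : V} {m : ℤ} (hm : m ≠ 0) : Mn Λ (B2 V) (fun v => v = w) (gp Λ w m) := by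
  refine ⟨gp_mem Λ (S := fun v => v = w) rfl m, ?_⟩
  rintro T' h1 ⟨v, hv, hv'⟩ c hc
  have h2 : ∀ u, ¬ T' u := by
    intro u hu
    have h3 : u = w := h1 u hu
    have h4 : v = w := hv
    exact hv' (by rw [h4, ← h3]; exact hu)
  have h3 := std_bot Λ (B2 V) h2 hc
  apply gp_ne Λ (w := w) hm
  have h4 : gp Λ w m = c * (c⁻¹ * gp Λ w m * c) * c⁻¹ := by group
  rw [h4, h3]
  group

theorem R9_proof (hB3 : S_B3) : S_R9 := by
  intro V _ Λ w m S t hm ht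
  have hw : S w := Mn_sub Λ (B2 V) (Mn_gp Λ hm) ht w rfl
  refine ⟨hw, fun hlink => ?_⟩
  have hx : gp Λ w m ∈ std Λ (B2 V) S := gp_mem Λ hw m
  have h1 : (er Λ (B2 V) S t)⁻¹ * gp Λ w m * er Λ (B2 V) S t = t⁻¹ * gp Λ w m * t := by
    have h2 := (mem_std Λ (B2 V)).1 ht
    rw [map_mul, map_mul, map_inv, (mem_std Λ (B2 V)).1 hx] at h2
    exact h2
  have h3 : (t * (er Λ (B2 V) S t)⁻¹) * gp Λ w m = gp Λ w m * (t * (er Λ (B2 V) S t)⁻¹) := by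
    calc (t * (er Λ (B2 V) S t)⁻¹) * gp Λ w m
        = t * ((er Λ (B2 V) S t)⁻¹ * gp Λ w m * er Λ (B2 V) S t) * (er Λ (B2 V) S t)⁻¹ := by group
      _ = t * (t⁻¹ * gp Λ w m * t) * (er Λ (B2 V) S t)⁻¹ := by rw [h1]
      _ = gp Λ w m * (t * (er Λ (B2 V) S t)⁻¹) := by group
  obtain ⟨y1, hy1, y2, hy2, hy, _⟩ := hB3 V Λ (B2 V) (fun v => v = w) (gp Λ w m) (Mn_gp Λ hm) _ h3
  have h4 : t = y1 * y2 * er Λ (B2 V) S t := by
    rw [← hy]
    group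
  rw [h4]
  refine mul_mem (mul_mem ?_ ?_) ?_
  · exact std_mono Λ (B2 V) (fun v (hv : v = w) => Or.inl (hv ▸ hw)) hy1
  · exact std_mono Λ (B2 V) (fun v hv => Or.inr ((hlink v).1 (hv w rfl).symm)) hy2
  · exact std_mono Λ (B2 V) (fun v hv => Or.inl hv) (er_mem Λ (B2 V) S t)

end Pool.Agent.H331.QC
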